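import Pool.Agent.H.MP_21b2a2_pr.D
import Pool.Agent.H.MP_21b2a2_pr.E

set_option autoImplicit false

namespace Pool.Agent.Results.MP_21b2a2_pr.Yes

open MeasureTheory ProbabilityTheory Filter Topology Matrix WithLp
open scoped RealInnerProductSpace

/-- A state: `N` rows in `ℝ^d`. -/
abbrev St (N d : ℕ) := Fin N → EuclideanSpace ℝ (Fin d)

/-- The mean row. -/
noncomputable def mean {N d : ℕ} (x : St N d) : EuclideanSpace ℝ (Fin d) := (N : ℝ)⁻¹ • ∑ k, x k

/-- The centred matrix, with rows `x i - mean x`. -/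
noncomputable def bar {N d : ℕ} (x : St N d) : Matrix (Fin N) (Fin d) ℝ :=
  Matrix.of fun i a => (x i - mean x) a

/-- The empirical covariance matrix. -/
noncomputable def cov {N d : ℕ} (x : St N d) : Matrix (Fin d) (Fin d) ℝ := (N : ℝ)⁻¹ • ((bar x)ᵀ * bar x)

def rho (α β : ℝ) : ℝ := α * (1 - β) ^ 2

/-- Law of the next state given the state `x`: independent Gaussian rows. -/
noncomputable def trans {N d : ℕ} (α β : ℝ) (x : St N d) : Measure (St N d) :=
  Measure.pi fun i => multivariateGaussian (β • x i + (1 - β) • mean x) (rho α β • cov x)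

noncomputable def psi (s : ℝ) : ℝ := (Complex.digamma s).re

noncomputable def phi (m x : ℝ) : ℝ := Real.exp (-x) * ∑' j : ℕ, x ^ j / j.factorial * psi (j + m)

noncomputable def lam (α β : ℝ) (N : ℕ) : ℝ :=
  1 / 2 * (phi ((N - 1) / 2) (N * β ^ 2 / (2 * rho α β)) + Real.log (2 * rho α β / N))

/-- `X` is a Markov chain with transition law `trans α β`. -/
def IsChain {N d : ℕ} (α β : ℝ) {Ω : Type} [MeasurableSpace Ω] (P : Measure Ω) (X : ℕ → Ω → St N d) : Prop :=
  (∀ t, Measurable (X t)) ∧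
  ∀ (t : ℕ) (A : Set (Fin (t + 1) → St N d)) (B : Set (St N d)), MeasurableSet A → MeasurableSet B →
    P ({ω | (fun s : Fin (t + 1) => X s ω) ∈ A} ∩ X (t + 1) ⁻¹' B)
      = ∫⁻ ω in {ω | (fun s : Fin (t + 1) => X s ω) ∈ A}, trans α β (X t ω) B ∂P

open Pool.Agent.H.MP_21b2a2_pr

noncomputable def F {N d : ℕ} (β c : ℝ) (x : St N d) (g : Fin N → Fin N → ℝ) : St N d :=
  fun i => (β • x i + (1 - β) • mean x) + ∑ k, g i k • c • (x k - mean x)

lemma F_m {N d : ℕ} (β c : ℝ) : Measurable fun p : St N d × (Fin N → Fin N → ℝ) => F β c p.1 p.2 := by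
  unfold F mean; fun_prop

lemma quad {N d : ℕ} (x : St N d) (t : EuclideanSpace ℝ (Fin d)) :
    t ⬝ᵥ cov x *ᵥ t = (N : ℝ)⁻¹ * ∑ k, ⟪x k - mean x, t⟫ ^ 2 := by
  rw [cov, smul_mulVec, dotProduct_smul, ← mulVec_mulVec, dotProduct_mulVec, vecMul_transpose]
  simp [dotProduct, mulVec, bar, PiLp.inner_apply, sq, mul_comm]

lemma trans_eq {N d : ℕ} {α β c : ℝ} (hρ : 0 ≤ rho α β) (hc : c ^ 2 = rho α β / N) (x : St N d) :
    trans α β x = (gG N).map (F β c x) := by
  have hS : (rho α β • cov x).PosSemidef := by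
    have := posSemidef_conjTranspose_mul_self (bar x)
    rw [conjTranspose_eq_transpose_of_trivial] at this
    exact (this.smul (by positivity)).smul hρ
  refine ((measurePreserving_pi _ _ (f := fun i (z : Fin N → ℝ) =>
    (β • x i + (1 - β) • mean x) + ∑ k, z k • c • (x k - mean x)) fun i => ⟨by fun_prop, ?_⟩).map_eq).symm
  refine Measure.ext_of_charFun (funext fun t => ?_)
  rw [cf_row, charFun_multivariateGaussian hS, smul_mulVec, dotProduct_smul, quad]
  simp only [real_inner_smul_left, mul_pow, ← Finset.mul_sum, hc, smul_eq_mul]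
  congr 4; ring

noncomputable def ee (N : ℕ) : EE N := toLp 2 fun _ => (√(N : ℝ))⁻¹

noncomputable def yy {N d : ℕ} (u : EuclideanSpace ℝ (Fin d)) (x : St N d) : EE N := toLp 2 fun i => ⟪u, x i⟫

lemma ee_s (N : ℕ) : (√(N : ℝ))⁻¹ * (√(N : ℝ))⁻¹ = (N : ℝ)⁻¹ := by
  rw [← mul_inv, Real.mul_self_sqrt N.cast_nonneg]

lemma in_ee {N d : ℕ} (u : EuclideanSpace ℝ (Fin d)) (x : St N d) :
    ⟪ee N, yy u x⟫ * (√(N : ℝ))⁻¹ = ⟪u, mean x⟫ := by
  rw [mean, inner_smul_right, inner_sum, PiLp.inner_apply, ← ee_s]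
  simp only [ee, yy, Real.inner_apply, ← Finset.mul_sum]
  ring

lemma pj_yy {N d : ℕ} (u : EuclideanSpace ℝ (Fin d)) (x : St N d) (i : Fin N) :
    pj (ee N) (yy u x) i = ⟪u, x i - mean x⟫ := by
  rw [inner_sub_right, ← in_ee]; simp [pj, yy, ee]

lemma yy_F {N d : ℕ} (u : EuclideanSpace ℝ (Fin d)) (β c : ℝ) (x : St N d) (g : Fin N → Fin N → ℝ) :
    yy u (F β c x g) = st (ee N) β c (yy u x) g := by
  ext i
  have : (ee N) i = (√(N : ℝ))⁻¹ := rfl
  simp only [st, PiLp.add_apply, PiLp.smul_apply, smul_eq_mul, mv, pj_yy, this, mul_assoc, in_ee]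
  simp only [yy, F, inner_add_right, inner_smul_right, inner_sum, Finset.mul_sum, mul_left_comm]

theorem result (N d : ℕ) (hd : 1 ≤ d) (hN : d + 1 ≤ N) (α β : ℝ) (hα : 0 < α) (hβ0 : 0 ≤ β) (hβ1 : β < 1)
    (hlam : lam α β N = 0) (Ω : Type) [MeasurableSpace Ω] (P : Measure Ω) [IsProbabilityMeasure P]
    (X : ℕ → Ω → St N d) (hX : IsChain α β P X) (h0 : ∀ᵐ ω ∂P, (cov (X 0 ω)).PosDef)
    (u : EuclideanSpace ℝ (Fin d)) (hu : u ≠ 0) :
    ∀ᵐ ω ∂P, (∀ i, Tendsto (fun t => |⟪u, X t ω i⟫|) atTop atTop) ∧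
      Tendsto (fun t => |⟪u, mean (X t ω)⟫|) atTop atTop := by
  obtain ⟨n, rfl⟩ : ∃ n, N = n + 2 := ⟨N - 2, by omega⟩
  have hρ : 0 < rho α β := mul_pos hα (pow_pos (by linarith) 2)
  set c := √(rho α β / (n + 2 : ℕ))
  have hc : 0 < c := Real.sqrt_pos.2 (by positivity)
  have hc2 : c ^ 2 = rho α β / (n + 2 : ℕ) := Real.sq_sqrt (by positivity)
  have hl : ∫ y, Real.log (qq (n := n) β c y) ∂gp (n + 1) = 0 := by
    rw [digam β hc, hc2]
    have e1 : β ^ 2 / (2 * (rho α β / (n + 2 : ℕ))) = (n + 2 : ℕ) * β ^ 2 / (2 * rho α β) := by field_simp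
    have e2 : ((n : ℝ) + 1) / 2 = ((n + 2 : ℕ) - 1) / 2 := by push_cast; ring
    rw [e1, e2, mul_div_assoc' 2]
    unfold lam phi psi at hlam
    linarith
  have hs : 0 < (√((n + 2 : ℕ) : ℝ))⁻¹ := by positivity
  have he : ‖ee (n + 2)‖ = 1 := by
    rw [EuclideanSpace.norm_eq, Real.sqrt_eq_one]
    simp only [ee, Real.norm_eq_abs, sq, ee_s, Finset.sum_const, Finset.card_univ, Fintype.card_fin,
      nsmul_eq_mul, abs_mul_abs_self]
    field_simp
  have hr : ∀ x : St (n + 2) d, ∀ ω t, yy u (rec1 (F β c) x ω t) = fl (ee (n + 2)) β c (yy u x) ω t := by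
    intro x ω t
    induction t with
    | zero => rfl
    | succ t ih => rw [rec1, fl, yy_F, ih]
  refine transfer (F_m β c) (gG (n + 2)) P X hX.1
    (fun t A B hA hB => by simpa only [← trans_eq hρ.le hc2] using hX.2 t A B hA hB)
    (E := {p | (∀ i, Tendsto (fun t => |⟪u, p t i⟫|) atTop atTop) ∧
      Tendsto (fun t => |⟪u, mean (p t)⟫|) atTop atTop}) ?_ (T := {x | pj (ee (n + 2)) (yy u x) ≠ 0}) ?_
    (h0.mono fun ω h e => ?_) fun x hx => ?_
  · rw [Set.ofPred_and, Set.ofPred_forall]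
    exact (MeasurableSet.iInter fun i => measurableSet_tendsto _ fun t => by fun_prop).inter
      (measurableSet_tendsto _ fun t => by unfold mean; fun_prop)
  · exact ((pj_m _).comp (by unfold yy; fun_prop) (measurableSet_singleton 0)).compl
  · have := h.dotProduct_mulVec_pos (x := u.ofLp) (by simpa using hu)
    rw [star_trivial, quad] at this
    simp [real_inner_comm u, ← pj_yy, e] at this
  · have h1 := fun i => main (ee (n + 2)) he hβ0 hc hl _ hx (EuclideanSpace.single i 1)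
      (by rw [EuclideanSpace.inner_single_left]; simpa [ee] using hs.ne')
    have h2 := main (ee (n + 2)) he hβ0 hc hl _ hx ((√((n + 2 : ℕ) : ℝ))⁻¹ • ee (n + 2))
      (by rw [real_inner_smul_left, real_inner_self_eq_norm_sq, he]; simpa using hs.ne')
    filter_upwards [ae_all_iff.2 h1, h2] with ω k1 k2
    refine ⟨fun i => (k1 i).congr fun t => ?_, k2.congr fun t => ?_⟩
    · rw [← hr, EuclideanSpace.inner_single_left]; simp [yy]
    · rw [← hr, real_inner_smul_left, mul_comm, in_ee]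

end Pool.Agent.Results.MP_21b2a2_pr.Yes
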